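import Mathlib
import Pool.Agent.Lib.helper18.Gr3

set_option autoImplicit false

open Classical Matrix SimpleGraph

namespace Pool.Agent.Results.MP_0d5a8e_co.Hexagon

/-- `t` is the second largest distinct adjacency eigenvalue. -/
def IsSecond {n : ℕ} (G : SimpleGraph (Fin n)) (t : ℝ) : Prop :=
  ∃ s, IsGreatest (spectrum ℝ (G.adjMatrix ℝ)) s ∧ IsGreatest (spectrum ℝ (G.adjMatrix ℝ) \ {s}) t

/-- The columns of `U` form a basis of the `t`-eigenspace of the adjacency matrix. -/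
def IsEigBasis {n d : ℕ} (G : SimpleGraph (Fin n)) (t : ℝ) (U : Matrix (Fin n) (Fin d) ℝ) : Prop :=
  LinearIndependent ℝ (fun k => Uᵀ k) ∧
    ∀ x, x ∈ Submodule.span ℝ (Set.range fun k => Uᵀ k) ↔ G.adjMatrix ℝ *ᵥ x = t • x

def f (a b : Fin 12) : Bool := (a - b).val ∈ [1, 2, 5, 6, 7, 10, 11]

def G0 : SimpleGraph (Fin 12) := H18Gr.mk f (by decide +kernel) (by decide +kernel)

def U0 : Matrix (Fin 12) (Fin 2) ℝ :=
  !![1, 0; 1, 1; 0, 1; -1, 0; -1, -1; 0, -1; 1, 0; 1, 1; 0, 1; -1, 0; -1, -1; 0, -1]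

lemma spec (t : ℝ) : t ∈ spectrum ℝ (G0.adjMatrix ℝ) ↔
    t = 7 ∨ t = 2 ∨ t = 0 ∨ t = -1 ∨ t = -2 ∨ t = -3 := by
  rw [Matrix.mem_spectrum_iff_isRoot_charpoly,
    ← Polynomial.mem_roots (Matrix.charpoly_monic _).ne_zero]
  unfold G0
  rw [H18Gr.adjMatrix_mk, H18Gr.roots_cert (H18Gr.zm f)
    !![1, -1, 1, -1, 0, 1, 0, -1, -1, -1, -1, 0; 1, -1, 0, 0, -1, 0, 1, 1, 1, 0, 0, -1; 1, 0,
      -1, -1, 0, 0, 0, -1, 0, 1, 1, 0; 1, 1, -1, 0, -1, 0, 0, 1, -1, -1, 0, 1; 1, 1, 0, 0, 0, -1,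
      0, -1, 1, 0, -1, 0; 1, 0, 1, 0, 0, 0, -1, 1, 0, 1, 0, -1; 1, -1, 1, 1, 0, -1, 0, -1, -1, -1,
      1, 0; 1, -1, 0, 0, 1, 0, -1, 1, 1, 0, 0, 1; 1, 0, -1, 1, 0, 0, 0, -1, 0, 1, -1, 0; 1, 1, -1,
      0, 1, 0, 0, 1, -1, -1, 0, -1; 1, 1, 0, 0, 0, 1, 0, -1, 1, 0, 1, 0; 1, 0, 1, 0, 0, 0, 1, 1,
      0, 1, 0, 1]
    !![1, 1, 1, 1, 1, 1, 1, 1, 1, 1, 1, 1; -1, -2, -1, 1, 2, 1, -1, -2, -1, 1, 2, 1; 1, -1, -2,
      -1, 1, 2, 1, -1, -2, -1, 1, 2; -2, 0, -4, 0, -2, 0, 2, 0, 4, 0, 2, 0; 0, -2, 0, -4, 0, -2,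
      0, 2, 0, 4, 0, 2; 2, 0, -2, 0, -4, 0, -2, 0, 2, 0, 4, 0; 0, 2, 0, -2, 0, -4, 0, -2, 0, 2, 0,
      4; -1, 1, -1, 1, -1, 1, -1, 1, -1, 1, -1, 1; -1, 2, -1, -1, 2, -1, -1, 2, -1, -1, 2, -1; -1,
      -1, 2, -1, -1, 2, -1, -1, 2, -1, -1, 2; -2, 0, 2, 0, -2, 0, 2, 0, -2, 0, 2, 0; 0, -2, 0, 2,
      0, -2, 0, 2, 0, -2, 0, 2]
    ![7, 2, 2, 0, 0, 0, 0, -1, -2, -2, -3, -3]
    12 (by norm_num) (by decide +kernel) (by decide +kernel)]
  simp [Fin.exists_fin_succ, eq_comm]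

lemma mv (x : Fin 12 → ℝ) (i : Fin 12) : (G0.adjMatrix ℝ *ᵥ x) i =
    x (i - 1) + x (i - 2) + x (i - 5) + x (i - 6) + x (i - 7) + x (i - 10) + x (i - 11) := by
  simp only [mulVec, dotProduct, adjMatrix_apply, G0, H18Gr.mk_adj]
  rw [← Equiv.sum_comp (Equiv.subLeft i)]
  simp [f, Fin.sum_univ_succ, add_assoc]

lemma basis : IsEigBasis G0 2 U0 := by
  constructor
  · rw [Fintype.linearIndependent_iff]
    intro g hg k
    have h0 := congrFun hg 0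
    have h2 := congrFun hg 2
    simp [U0, Fin.sum_univ_two] at h0 h2
    fin_cases k <;> assumption
  · intro x
    rw [Submodule.mem_span_range_iff_exists_fun]
    constructor
    · rintro ⟨c, rfl⟩
      ext i
      rw [mv]
      fin_cases i <;> simp [U0, Fin.sum_univ_two] <;> ring
    · intro h
      have e : ∀ i, x (i - 1) + x (i - 2) + x (i - 5) + x (i - 6) + x (i - 7) + x (i - 10) +
        x (i - 11) = 2 * x i := fun i => (mv x i).symm.trans (congrFun h i)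
      have e0 := e 0; have e1 := e 1; have e2 := e 2; have e3 := e 3; have e4 := e 4
      have e5 := e 5; have e6 := e 6; have e7 := e 7; have e8 := e 8; have e9 := e 9
      have e10 := e 10; have e11 := e 11
      simp only [Fin.reduceSub] at e0 e1 e2 e3 e4 e5 e6 e7 e8 e9 e10 e11
      refine ⟨![x 0, x 2], ?_⟩
      ext i
      fin_cases i <;> simp [U0, Fin.sum_univ_two] <;> linarith

lemma hull (y : Fin 2 → ℝ) (hy : y ∈ convexHull ℝ (Set.range fun i => U0 i)) :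
    y 0 ≤ 1 ∧ y 1 ≤ 1 ∧ y 0 - y 1 ≤ 1 ∧ y 1 - y 0 ≤ 1 := by
  refine convexHull_min (t := {y : Fin 2 → ℝ | y 0 ≤ 1 ∧ y 1 ≤ 1 ∧ y 0 - y 1 ≤ 1 ∧ y 1 - y 0 ≤ 1})
    ?_ ?_ hy
  · rintro _ ⟨i, rfl⟩
    fin_cases i <;> simp [U0]
  · rintro u ⟨u1, u2, u3, u4⟩ v ⟨v1, v2, v3, v4⟩ a b ha hb hab
    simp only [Set.mem_setOf_eq, Pi.add_apply, Pi.smul_apply, smul_eq_mul]
    refine ⟨?_, ?_, ?_, ?_⟩ <;> nlinarith

lemma tight {a b p q : ℝ} (ha : 0 < a) (hb : 0 < b) (hab : a + b = 1) (hp : p ≤ 1) (hq : q ≤ 1)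
    (h : a * p + b * q = 1) : p = 1 := by nlinarith

theorem result : ∃ (n d : ℕ) (G : SimpleGraph (Fin n)) (t : ℝ) (U : Matrix (Fin n) (Fin d) ℝ)
    (i j : Fin n), IsSecond G t ∧ IsEigBasis G t U ∧ G.Adj i j ∧ U i ≠ U j ∧
    U i ∈ (convexHull ℝ (Set.range fun k => U k)).extremePoints ℝ ∧
    U j ∈ (convexHull ℝ (Set.range fun k => U k)).extremePoints ℝ ∧
    ¬ IsExtreme ℝ (convexHull ℝ (Set.range fun k => U k)) (segment ℝ (U i) (U j)) := by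
  have mem : ∀ k, U0 k ∈ convexHull ℝ (Set.range fun k => U0 k) :=
    fun k => subset_convexHull ℝ _ ⟨k, rfl⟩
  refine ⟨12, 2, G0, 2, U0, 0, 2, ⟨7, ⟨by simp [spec], fun t ht => ?_⟩,
    ⟨⟨by simp [spec], by norm_num⟩, fun t ht => ?_⟩⟩, basis, (by decide : f 0 2 = true),
    fun h => ?_, ?_, ?_, fun h => ?_⟩
  · rcases (spec t).1 ht with h | h | h | h | h | h <;> linarith
  · rcases (spec t).1 ht.1 with h | h | h | h | h | h <;> first | exact absurd h ht.2 | linarith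
  · simpa [U0] using congrFun h 0
  · refine mem_extremePoints_iff_left.2 ⟨mem 0, fun x hx y hy ⟨a, b, ha, hb, hab, h⟩ => ?_⟩
    have h0 := congrFun h 0
    have h1 := congrFun h 1
    simp [U0] at h0 h1
    have e1 := tight ha hb hab (hull x hx).1 (hull y hy).1 h0
    have e2 := tight ha hb hab (hull x hx).2.2.1 (hull y hy).2.2.1 (by linarith)
    ext k; fin_cases k <;> simp [U0] <;> linarith
  · refine mem_extremePoints_iff_left.2 ⟨mem 2, fun x hx y hy ⟨a, b, ha, hb, hab, h⟩ => ?_⟩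
    have h0 := congrFun h 0
    have h1 := congrFun h 1
    simp [U0] at h0 h1
    have e1 := tight ha hb hab (hull x hx).2.1 (hull y hy).2.1 h1
    have e2 := tight ha hb hab (hull x hx).2.2.2 (hull y hy).2.2.2 (by linarith)
    ext k; fin_cases k <;> simp [U0] <;> linarith
  · obtain ⟨a, b, ha, hb, hab, h⟩ := h.left_mem_of_mem_openSegment (mem 1) (mem 4)
      (z := ![1 / 2, 1 / 2])
      ⟨1 / 2, 1 / 2, by norm_num, by norm_num, by norm_num, by ext k; fin_cases k <;> simp [U0]⟩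
      ⟨3 / 4, 1 / 4, by norm_num, by norm_num, by norm_num, by
        ext k; fin_cases k <;> simp [U0] <;> norm_num⟩
    have h0 := congrFun h 0
    have h1 := congrFun h 1
    simp [U0] at h0 h1
    linarith

end Pool.Agent.Results.MP_0d5a8e_co.Hexagon
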